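import Mathlib
import Pool.Agent.D0H94.T13.Stm

/-! Project FT, module BIN: differences of binomial probabilities. -/

open Filter Topology Finset

namespace Pool.Agent.D0H81.FT

open Pool.Agent.D0H94.T13

theorem bcoeff (p : ℝ) (m j : ℕ) :
    (bin p m).coeff j = (m.choose j : ℝ) * p ^ j * (1 - p) ^ (m - j) := by
  unfold bin
  rw [add_comm, add_pow, Polynomial.finsetSum_coeff]
  have h : ∀ k ∈ range (m + 1), ((Polynomial.C p * Polynomial.X) ^ k *
      (Polynomial.C (1 - p)) ^ (m - k) * ((m.choose k : ℕ) : Polynomial ℝ)).coeff j =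
      if j = k then (m.choose k : ℝ) * p ^ k * (1 - p) ^ (m - k) else 0 := by
    intro k _
    have e : (Polynomial.C p * Polynomial.X) ^ k *
      (Polynomial.C (1 - p)) ^ (m - k) * ((m.choose k : ℕ) : Polynomial ℝ) =
      Polynomial.C ((m.choose k : ℝ) * p ^ k * (1 - p) ^ (m - k)) * Polynomial.X ^ k := by
      rw [mul_pow, ← Polynomial.C_pow, ← Polynomial.C_pow, ← Polynomial.C_eq_natCast,
        Polynomial.C_mul, Polynomial.C_mul]
      ring
    rw [e, Polynomial.coeff_C_mul_X_pow]
  rw [sum_congr rfl h]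
  by_cases hj : j ≤ m
  · rw [sum_ite_eq, if_pos (mem_range.mpr (by omega))]
  · rw [Nat.choose_eq_zero_of_lt (by omega)]
    apply (sum_eq_zero _).trans (by simp)
    intro k hk
    rw [mem_range] at hk
    rw [if_neg (by omega)]

theorem b_nonneg {p : ℝ} (h0 : 0 < p) (h1 : p < 1) (m j : ℕ) : 0 ≤ (bin p m).coeff j := by
  rw [bcoeff]
  have : 0 < 1 - p := by linarith
  positivity

theorem eval_bin (p x : ℝ) (m : ℕ) : (bin p m).eval x = (1 - p + p * x) ^ m := by
  unfold bin
  simp

theorem coeff_le_eval {p : ℝ} (h0 : 0 < p) (h1 : p < 1) (m j : ℕ) {x : ℝ} (hx : 0 < x) :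
    (bin p m).coeff j * x ^ j ≤ (1 - p + p * x) ^ m := by
  rw [← eval_bin]
  by_cases hj : j ≤ (bin p m).natDegree
  · rw [Polynomial.eval_eq_sum_range]
    exact single_le_sum (f := fun i => (bin p m).coeff i * x ^ i)
      (fun i _ => mul_nonneg (b_nonneg h0 h1 m i) (by positivity)) (mem_range.mpr (by omega))
  · rw [Polynomial.coeff_eq_zero_of_natDegree_lt (by omega), zero_mul, Polynomial.eval_eq_sum_range]
    exact sum_nonneg fun i _ => mul_nonneg (b_nonneg h0 h1 m i) (by positivity)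

theorem b_le_one {p : ℝ} (h0 : 0 < p) (h1 : p < 1) (m j : ℕ) : (bin p m).coeff j ≤ 1 := by
  have h := coeff_le_eval h0 h1 m j (x := 1) one_pos
  simpa using h

/-- Chernoff -/
theorem chern {p : ℝ} (h0 : 0 < p) (h1 : p < 1) (m j : ℕ) (t : ℝ) (ht : |t| ≤ 1) :
    (bin p m).coeff j ≤ Real.exp (-(t * (j - p * m)) + m * t ^ 2) := by
  have h := coeff_le_eval h0 h1 m j (Real.exp_pos t)
  have h2 : 1 - p + p * Real.exp t ≤ Real.exp (p * t + t ^ 2) := by
    have h3 := Real.abs_exp_sub_one_sub_id_le ht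
    have h4 := (abs_le.mp h3).2
    have h5 := Real.add_one_le_exp (p * t + t ^ 2)
    nlinarith [sq_nonneg t]
  have h3 : 0 ≤ 1 - p + p * Real.exp t := by
    have := Real.exp_pos t
    nlinarith
  have h4 : (bin p m).coeff j * Real.exp t ^ j ≤ Real.exp (p * t + t ^ 2) ^ m :=
    h.trans (pow_le_pow_left₀ h3 h2 m)
  rw [← Real.exp_nat_mul, ← Real.exp_nat_mul] at h4
  have h5 : (bin p m).coeff j = (bin p m).coeff j * Real.exp (j * t) * Real.exp (-(j * t)) := by
    rw [mul_assoc, ← Real.exp_add]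
    simp
  rw [h5]
  calc _ ≤ Real.exp (m * (p * t + t ^ 2)) * Real.exp (-(j * t)) := by
        apply mul_le_mul_of_nonneg_right h4 (Real.exp_pos _).le
    _ = _ := by
        rw [← Real.exp_add]
        congr 1
        ring

/-- far from the mean -/
theorem far {p : ℝ} (h0 : 0 < p) (h1 : p < 1) (n m j : ℕ) (hn : 1 ≤ n) (hm : m ≤ n)
    (hr : Real.log n ≤ Real.sqrt n) (L : ℝ)
    (hj : L * (Real.sqrt n * Real.log n) ≤ |(j : ℝ) - p * m|) :
    (bin p m).coeff j ≤ Real.exp (-((L - 1) * Real.log n ^ 2)) := by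
  have hn1 : (1 : ℝ) ≤ n := by exact_mod_cast hn
  have hs : 0 < Real.sqrt n := Real.sqrt_pos.mpr (by linarith)
  have hl : 0 ≤ Real.log n := Real.log_nonneg hn1
  have hss : Real.sqrt n * Real.sqrt n = n := Real.mul_self_sqrt (by linarith)
  set t := Real.log n / Real.sqrt n with htd
  have ht0 : 0 ≤ t := by positivity
  have ht1 : t ≤ 1 := by
    rw [htd, div_le_one hs]
    exact hr
  have hts : t * Real.sqrt n = Real.log n := by
    rw [htd]; field_simp
  have hmt : (m : ℝ) * t ^ 2 ≤ Real.log n ^ 2 := by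
    rw [← hts]
    have : (m : ℝ) ≤ n := by exact_mod_cast hm
    have h2 : (t * Real.sqrt n) ^ 2 = n * t ^ 2 := by
      rw [mul_pow, Real.sq_sqrt (by linarith)]
      ring
    rw [h2]
    exact mul_le_mul_of_nonneg_right this (sq_nonneg t)
  have hkey : t * (L * (Real.sqrt n * Real.log n)) = L * Real.log n ^ 2 := by
    rw [show t * (L * (Real.sqrt n * Real.log n)) = L * (t * Real.sqrt n) * Real.log n by ring, hts]
    ring
  have hk2 := mul_le_mul_of_nonneg_left hj ht0
  rw [hkey] at hk2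
  rcases le_total 0 ((j : ℝ) - p * m) with h | h
  · rw [abs_of_nonneg h] at hk2
    refine (chern h0 h1 m j t (by rw [abs_of_nonneg ht0]; exact ht1)).trans ?_
    apply Real.exp_le_exp.mpr
    nlinarith
  · rw [abs_of_nonpos h] at hk2
    refine (chern h0 h1 m j (-t) (by rw [abs_neg, abs_of_nonneg ht0]; exact ht1)).trans ?_
    apply Real.exp_le_exp.mpr
    have : (-t) ^ 2 = t ^ 2 := by ring
    rw [this]
    nlinarith

/-- the first difference -/
theorem first_diff {p : ℝ} (_h0 : 0 < p) (h1 : p < 1) (m j : ℕ) (hj : j ≤ m) :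
    ((1 - Polynomial.X) * bin p m).coeff j * (((m : ℝ) - j + 1) * p) =
      (bin p m).coeff j * (p * (m + 1) - j) := by
  have hp : 0 < 1 - p := by linarith
  rw [sub_mul, one_mul, Polynomial.coeff_sub]
  rcases Nat.eq_zero_or_pos j with h | h
  · subst h
    rw [Polynomial.coeff_X_mul_zero]
    push_cast
    ring
  · obtain ⟨i, rfl⟩ : ∃ i, j = i + 1 := ⟨j - 1, by omega⟩
    rw [Polynomial.coeff_X_mul]
    have hc := Nat.choose_succ_right_eq m i
    have hc' : (m.choose (i + 1) : ℝ) * ((i : ℝ) + 1) = (m.choose i : ℝ) * ((m : ℝ) - i) := by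
      rw [← Nat.cast_sub (by omega : i ≤ m)]
      exact_mod_cast hc
    have key : (bin p m).coeff (i + 1) * (((i : ℝ) + 1) * (1 - p)) =
        (bin p m).coeff i * (((m : ℝ) - i) * p) := by
      rw [bcoeff, bcoeff]
      have e : (1 - p) ^ (m - i) = (1 - p) ^ (m - (i + 1)) * (1 - p) := by
        rw [← pow_succ]
        congr 1
        omega
      rw [e]
      calc _ = ((m.choose (i + 1) : ℝ) * ((i : ℝ) + 1)) * (p ^ (i + 1) * (1 - p) ^ (m - (i + 1)) *
            (1 - p)) := by ring
        _ = ((m.choose i : ℝ) * ((m : ℝ) - i)) * (p ^ (i + 1) * (1 - p) ^ (m - (i + 1)) *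
            (1 - p)) := by rw [hc']
        _ = _ := by ring
    push_cast
    linarith [key]

theorem b_zero {p : ℝ} (m j : ℕ) (hj : m < j) : (bin p m).coeff j = 0 := by
  rw [bcoeff, Nat.choose_eq_zero_of_lt hj]
  simp

theorem rho_tendsto : Tendsto (fun n : ℕ => Real.log n / Real.sqrt n) atTop (𝓝 0) := by
  have h := (isLittleO_log_rpow_atTop (r := 1/2) (by norm_num)).tendsto_div_nhds_zero
  have h2 := h.comp tendsto_natCast_atTop_atTop
  refine h2.congr ?_
  intro n
  simp only [Function.comp_apply]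
  rw [Real.sqrt_eq_rpow]

theorem base {p : ℝ} (h0 : 0 < p) (h1 : p < 1) (A : ℝ) (hA : 0 < A) (C : ℕ) (hC : 0 < C) :
    ∃ K : ℝ, 0 < K ∧ ∃ n0 : ℕ, ∀ n m : ℕ, n0 ≤ n → n ≤ C * m → m ≤ n → ∀ j : ℕ,
    |((1 - Polynomial.X) * bin p m).coeff j| ≤
      K * ρ n * (bin p m).coeff j + Real.exp (-(A * Real.log n ^ 2)) := by
  have hp : 0 < 1 - p := by linarith
  have hCr : (0 : ℝ) < C := by exact_mod_cast hC
  set L : ℝ := A + 2 with hL
  have hL0 : 0 < L := by positivity
  refine ⟨6 * C * L / (p * (1 - p)), by positivity, ?_⟩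
  -- eventual facts
  have ev1 : ∀ᶠ n : ℕ in atTop, Real.log n / Real.sqrt n < min 1 ((1 - p) / (4 * C * L)) :=
    rho_tendsto.eventually_lt_const (by positivity)
  have ev2 : ∀ᶠ n : ℕ in atTop, (1 : ℝ) ≤ Real.log n :=
    (Real.tendsto_log_atTop.comp tendsto_natCast_atTop_atTop).eventually_ge_atTop 1
  have ev3 : ∀ᶠ n : ℕ in atTop, 1 ≤ n := eventually_ge_atTop 1
  obtain ⟨n0, hn0⟩ := eventually_atTop.mp (ev1.and (ev2.and ev3))
  refine ⟨n0, ?_⟩
  intro n m hn hnm hmn j
  obtain ⟨e1, e2, e3⟩ := hn0 n hn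
  have hn1 : (1 : ℝ) ≤ n := by exact_mod_cast e3
  have hs : 0 < Real.sqrt n := Real.sqrt_pos.mpr (by linarith)
  have hs1 : 1 ≤ Real.sqrt n := by
    rw [Real.one_le_sqrt]
    exact hn1
  have hl : 0 < Real.log n := by linarith
  have hss : Real.sqrt n * Real.sqrt n = n := Real.mul_self_sqrt (by linarith)
  have hle : Real.log n ≤ Real.sqrt n := by
    have := (lt_min_iff.mp e1).1
    rw [div_lt_one hs] at this
    exact this.le
  have hnm' : (n : ℝ) ≤ C * m := by exact_mod_cast hnm
  have hmn' : (m : ℝ) ≤ n := by exact_mod_cast hmn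
  set T := L * (Real.sqrt n * Real.log n) with hT
  have hT1 : 1 ≤ T := by
    have : 1 ≤ Real.sqrt n * Real.log n := by nlinarith
    have hL1 : 1 ≤ L := by linarith
    nlinarith
  -- `4 T ≤ (1 - p) m`
  have hTm : 4 * T ≤ (1 - p) * m := by
    have h2 := (lt_min_iff.mp e1).2.le
    rw [div_le_div_iff₀ hs (by positivity)] at h2
    -- log n * (4 C L) ≤ (1-p) sqrt n
    have h3 : Real.log n * (4 * C * L) * Real.sqrt n ≤ (1 - p) * Real.sqrt n * Real.sqrt n :=
      mul_le_mul_of_nonneg_right h2 hs.le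
    have h4 : (1 - p) * Real.sqrt n * Real.sqrt n = (1 - p) * n := by rw [mul_assoc, hss]
    rw [h4] at h3
    have h5 : (1 - p) * n ≤ (1 - p) * (C * m) := mul_le_mul_of_nonneg_left hnm' hp.le
    have h6 : C * (4 * T) ≤ C * ((1 - p) * m) := by
      rw [hT]
      nlinarith
    exact le_of_mul_le_mul_left h6 hCr
  have hexp : 0 < Real.exp (-(A * Real.log n ^ 2)) := Real.exp_pos _
  have hρ : 0 < ρ n := by unfold ρ; positivity
  by_cases hc : |(j : ℝ) - p * m| ≤ 2 * T
  · -- near the mean
    have hj1 := (abs_le.mp hc).2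
    have hj2 := (abs_le.mp hc).1
    have hjm' : (j : ℝ) ≤ m := by nlinarith
    have hjm : j ≤ m := by exact_mod_cast hjm'
    have hd := first_diff h0 h1 m j hjm
    have hden : (1 - p) * m / 2 ≤ (m : ℝ) - j + 1 := by nlinarith
    have hm0 : 0 < (m : ℝ) := by nlinarith
    have hden0 : 0 < ((m : ℝ) - j + 1) * p := by
      have : 0 < (1 - p) * m / 2 := by positivity
      nlinarith
    have hnum : |p * (m + 1) - (j : ℝ)| ≤ 3 * T := by
      rw [abs_le]
      constructor
      · nlinarith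
      · nlinarith
    have heq : |((1 - Polynomial.X) * bin p m).coeff j| =
        (bin p m).coeff j * (|p * (m + 1) - (j : ℝ)| / (((m : ℝ) - j + 1) * p)) := by
      rw [eq_comm, ← mul_div_assoc, div_eq_iff hden0.ne', ← abs_of_pos hden0, ← abs_mul, hd, abs_mul,
        abs_of_nonneg (b_nonneg h0 h1 m j)]
    have hfac : |p * (m + 1) - (j : ℝ)| / (((m : ℝ) - j + 1) * p) ≤
        6 * C * L / (p * (1 - p)) * ρ n := by
      rw [div_le_iff₀ hden0]
      refine hnum.trans ?_
      have h7 : 6 * C * L / (p * (1 - p)) * ρ n * ((1 - p) * m / 2 * p) ≤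
          6 * C * L / (p * (1 - p)) * ρ n * (((m : ℝ) - j + 1) * p) := by
        apply mul_le_mul_of_nonneg_left _ (by positivity)
        exact mul_le_mul_of_nonneg_right hden h0.le
      refine le_trans ?_ h7
      have h8 : 6 * C * L / (p * (1 - p)) * ρ n * ((1 - p) * m / 2 * p) =
          3 * L * (C * m) * (Real.log n / Real.sqrt n) := by
        unfold ρ
        field_simp
        ring
      rw [h8]
      have h9 : 3 * L * n * (Real.log n / Real.sqrt n) ≤
          3 * L * (C * m) * (Real.log n / Real.sqrt n) := by gcongr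
      refine le_trans (le_of_eq ?_) h9
      rw [hT]
      have : (n : ℝ) * (Real.log n / Real.sqrt n) = Real.sqrt n * Real.log n := by
        have h10 : (n : ℝ) * (Real.log n / Real.sqrt n) =
            (Real.sqrt n * Real.sqrt n) * (Real.log n / Real.sqrt n) := by rw [hss]
        rw [h10]
        field_simp
      calc 3 * (L * (Real.sqrt n * Real.log n)) = 3 * L * (Real.sqrt n * Real.log n) := by ring
        _ = 3 * L * ((n : ℝ) * (Real.log n / Real.sqrt n)) := by rw [this]
        _ = _ := by ring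
    rw [heq]
    have := mul_le_mul_of_nonneg_left hfac (b_nonneg h0 h1 m j)
    nlinarith
  · -- far from the mean
    push Not at hc
    have hb1 : (bin p m).coeff j ≤ Real.exp (-((L - 1) * Real.log n ^ 2)) :=
      far h0 h1 n m j e3 hmn hle L (by linarith)
    have h2e : Real.exp (-((L - 1) * Real.log n ^ 2)) ≤ Real.exp (-(A * Real.log n ^ 2)) := by
      apply Real.exp_le_exp.mpr
      have : L - 1 = A + 1 := by rw [hL]; ring
      rw [this]
      nlinarith [sq_nonneg (Real.log n)]
    have hbj := b_nonneg h0 h1 m j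
    have hmain : 0 ≤ 6 * C * L / (p * (1 - p)) * ρ n * (bin p m).coeff j := by positivity
    rw [sub_mul, one_mul, Polynomial.coeff_sub]
    rcases Nat.eq_zero_or_pos j with h | h
    · subst h
      rw [Polynomial.coeff_X_mul_zero, sub_zero, abs_of_nonneg hbj]
      linarith
    · obtain ⟨i, rfl⟩ : ∃ i, j = i + 1 := ⟨j - 1, by omega⟩
      rw [Polynomial.coeff_X_mul]
      have hbi := b_nonneg h0 h1 m i
      have hb2 : (bin p m).coeff i ≤ Real.exp (-((L - 1) * Real.log n ^ 2)) := by
        apply far h0 h1 n m i e3 hmn hle L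
        push_cast at hc
        have h3 : |(i : ℝ) + 1 - p * m| ≤ |(i : ℝ) - p * m| + 1 := by
          have := abs_add_le ((i : ℝ) - p * m) 1
          rw [abs_one] at this
          refine le_trans (le_of_eq ?_) this
          congr 1
          ring
        linarith
      rw [abs_le]
      constructor
      · linarith
      · linarith

theorem ev_big (r : ℕ) (K : ℝ) :
    ∀ᶠ n : ℕ in atTop, ((n : ℝ) + r + 2) * K ≤ Real.exp (Real.log n ^ 2) := by
  have ev1 : ∀ᶠ n : ℕ in atTop, (2 : ℝ) ≤ Real.log n :=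
    (Real.tendsto_log_atTop.comp tendsto_natCast_atTop_atTop).eventually_ge_atTop 2
  have ev2 : ∀ᶠ n : ℕ in atTop, ((r : ℝ) + 3) * |K| ≤ n :=
    tendsto_natCast_atTop_atTop.eventually_ge_atTop _
  filter_upwards [ev1, ev2, eventually_ge_atTop 1] with n h1 h2 h3
  have hn1 : (1 : ℝ) ≤ n := by exact_mod_cast h3
  have h4 : Real.exp (2 * Real.log n) ≤ Real.exp (Real.log n ^ 2) := by
    apply Real.exp_le_exp.mpr
    nlinarith
  have h5 : Real.exp (2 * Real.log n) = (n : ℝ) ^ 2 := by
    rw [two_mul, Real.exp_add, Real.exp_log (by linarith)]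
    ring
  rw [h5] at h4
  refine le_trans ?_ h4
  have h6 : ((n : ℝ) + r + 2) * K ≤ ((n : ℝ) + r + 2) * |K| :=
    mul_le_mul_of_nonneg_left (le_abs_self K) (by positivity)
  have h7 : ((n : ℝ) + r + 2) ≤ n * (r + 3) := by nlinarith [Nat.cast_nonneg (α := ℝ) r]
  calc _ ≤ ((n : ℝ) + r + 2) * |K| := h6
    _ ≤ (n * (r + 3)) * |K| := mul_le_mul_of_nonneg_right h7 (abs_nonneg K)
    _ = n * ((r + 3) * |K|) := by ring
    _ ≤ n * n := mul_le_mul_of_nonneg_left h2 (by linarith)
    _ = _ := by ring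

theorem gen {p : ℝ} (h0 : 0 < p) (h1 : p < 1) (r : ℕ) : ∀ (A : ℝ), 0 < A → ∀ (C : ℕ), 0 < C →
    ∃ K : ℝ, 0 < K ∧ ∃ n0 : ℕ, ∀ n m : ℕ, n0 ≤ n → n ≤ C * m → m ≤ n → ∀ j : ℕ,
    |((1 - Polynomial.X) ^ r * bin p m).coeff j| ≤
      K * ρ n ^ r * (bin p m).coeff j + Real.exp (-(A * Real.log n ^ 2)) := by
  induction r with
  | zero =>
    intro A hA C hC
    refine ⟨1, one_pos, 0, ?_⟩
    intro n m _ _ _ j
    rw [pow_zero, one_mul, pow_zero, abs_of_nonneg (b_nonneg h0 h1 m j)]
    have := Real.exp_pos (-(A * Real.log n ^ 2))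
    linarith
  | succ r ih =>
    intro A hA C hC
    obtain ⟨K1, hK1, n1, hn1⟩ := ih (A + 1) (by linarith) (4 * C) (by omega)
    obtain ⟨K2, hK2, n2, hn2⟩ := base h0 h1 (A + 1) (by linarith) (4 * C) (by omega)
    refine ⟨K1 * K2, by positivity, ?_⟩
    have ev1 : ∀ᶠ n : ℕ in atTop, Real.log n / Real.sqrt n < 1 :=
      rho_tendsto.eventually_lt_const one_pos
    obtain ⟨n3, hn3⟩ := eventually_atTop.mp (ev1.and ((ev_big r (K1 + K2 + 1)).and
      (eventually_ge_atTop (max (max n1 n2) (C * 2)))))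
    refine ⟨n3, ?_⟩
    intro n m hn hnm hmn l
    obtain ⟨e1, e2, e3⟩ := hn3 n hn
    have hne1 : n1 ≤ n := le_trans (le_trans (le_max_left _ _) (le_max_left _ _)) e3
    have hne2 : n2 ≤ n := le_trans (le_trans (le_max_right _ _) (le_max_left _ _)) e3
    have hne3 : C * 2 ≤ n := le_trans (le_max_right _ _) e3
    have hm2 : 2 ≤ m := by
      have : C * 2 ≤ C * m := hne3.trans hnm
      exact Nat.le_of_mul_le_mul_left this hC
    have hmm : m / 2 + (m - m / 2) = m := by omega
    have hq1 : n ≤ 4 * C * (m / 2) := by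
      have : m ≤ 4 * (m / 2) := by omega
      calc n ≤ C * m := hnm
        _ ≤ C * (4 * (m / 2)) := Nat.mul_le_mul_left C this
        _ = _ := by ring
    have hq2 : n ≤ 4 * C * (m - m / 2) := by
      have : m ≤ 4 * (m - m / 2) := by omega
      calc n ≤ C * m := hnm
        _ ≤ C * (4 * (m - m / 2)) := Nat.mul_le_mul_left C this
        _ = _ := by ring
    have a1 := hn1 n (m / 2) hne1 hq1 (by omega)
    have a2 := hn2 n (m - m / 2) hne2 hq2 (by omega)
    have hn1' : (1 : ℝ) ≤ n := by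
      have : 1 ≤ n := by omega
      exact_mod_cast this
    have hρ0 : 0 ≤ ρ n := by
      unfold ρ
      exact div_nonneg (Real.log_nonneg hn1') (Real.sqrt_nonneg _)
    have hρ1 : ρ n ≤ 1 := e1.le
    have hρr : ρ n ^ r ≤ 1 := pow_le_one₀ hρ0 hρ1
    have hρr0 : 0 ≤ ρ n ^ r := by positivity
    have hfac : (1 - Polynomial.X) ^ (r + 1) * bin p m =
        ((1 - Polynomial.X) ^ r * bin p (m / 2)) * ((1 - Polynomial.X) * bin p (m - m / 2)) := by
      have : bin p m = bin p (m / 2) * bin p (m - m / 2) := by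
        unfold bin
        rw [← pow_add, hmm]
      rw [this, pow_succ]
      ring
    have hbm : bin p m = bin p (m / 2) * bin p (m - m / 2) := by
      unfold bin
      rw [← pow_add, hmm]
    set ε := Real.exp (-((A + 1) * Real.log n ^ 2)) with hε
    have hε0 : 0 < ε := Real.exp_pos _
    have hε1 : ε ≤ 1 := by
      rw [hε]
      apply Real.exp_le_one_iff.mpr
      nlinarith [sq_nonneg (Real.log n)]
    have hεε : Real.exp (Real.log n ^ 2) * ε = Real.exp (-(A * Real.log n ^ 2)) := by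
      rw [hε, ← Real.exp_add]
      congr 1
      ring
    by_cases hl : l ≤ m + r + 1
    · rw [hfac, Polynomial.coeff_mul]
      have s1 : |∑ x ∈ antidiagonal l, ((1 - Polynomial.X) ^ r * bin p (m / 2)).coeff x.1 *
          ((1 - Polynomial.X) * bin p (m - m / 2)).coeff x.2| ≤
          ∑ x ∈ antidiagonal l, ((K1 * ρ n ^ r) * (K2 * ρ n) *
            ((bin p (m / 2)).coeff x.1 * (bin p (m - m / 2)).coeff x.2) +
            (K1 + K2 + 1) * ε) := by
        refine (abs_sum_le_sum_abs _ _).trans (sum_le_sum ?_)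
        intro x _
        rw [abs_mul]
        have b1 := a1 x.1
        have b2 := a2 x.2
        have c1 := b_nonneg h0 h1 (m / 2) x.1
        have c2 := b_nonneg h0 h1 (m - m / 2) x.2
        have d1 := b_le_one h0 h1 (m / 2) x.1
        have d2 := b_le_one h0 h1 (m - m / 2) x.2
        set u := (bin p (m / 2)).coeff x.1
        set v := (bin p (m - m / 2)).coeff x.2
        have hX : K1 * ρ n ^ r * u ≤ K1 := by
          have : K1 * ρ n ^ r * u ≤ K1 * 1 * 1 := by gcongr
          linarith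
        have hY : K2 * ρ n * v ≤ K2 := by
          have : K2 * ρ n * v ≤ K2 * 1 * 1 := by gcongr
          linarith
        have hX0 : 0 ≤ K1 * ρ n ^ r * u := by positivity
        have hY0 : 0 ≤ K2 * ρ n * v := by positivity
        calc _ ≤ (K1 * ρ n ^ r * u + ε) * (K2 * ρ n * v + ε) :=
              mul_le_mul b1 b2 (abs_nonneg _) (by positivity)
          _ ≤ _ := by nlinarith
      refine s1.trans ?_
      rw [sum_add_distrib, ← mul_sum, ← Polynomial.coeff_mul, ← hbm, sum_const,
        Nat.card_antidiagonal, nsmul_eq_mul, ← hεε]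
      have hl' : ((l + 1 : ℕ) : ℝ) ≤ (n : ℝ) + r + 2 := by
        have : l + 1 ≤ n + r + 2 := by omega
        exact_mod_cast this
      have s2 : ((l + 1 : ℕ) : ℝ) * ((K1 + K2 + 1) * ε) ≤ Real.exp (Real.log n ^ 2) * ε := by
        rw [← mul_assoc]
        apply mul_le_mul_of_nonneg_right _ hε0.le
        refine le_trans ?_ e2
        exact mul_le_mul_of_nonneg_right hl' (by positivity)
      have s3 : K1 * ρ n ^ r * (K2 * ρ n) * (bin p m).coeff l =
          K1 * K2 * ρ n ^ (r + 1) * (bin p m).coeff l := by ring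
      rw [s3]
      linarith
    · have hdeg : ((1 - Polynomial.X) ^ (r + 1) * bin p m : Polynomial ℝ).natDegree ≤ r + 1 + m := by
        refine Polynomial.natDegree_mul_le.trans (add_le_add ?_ ?_)
        · refine (Polynomial.natDegree_pow_le).trans ?_
          have : ((1 : Polynomial ℝ) - Polynomial.X).natDegree ≤ 1 := by
            refine (Polynomial.natDegree_sub_le _ _).trans ?_
            simp
          calc (r + 1) * ((1 : Polynomial ℝ) - Polynomial.X).natDegree ≤ (r + 1) * 1 :=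
                Nat.mul_le_mul_left _ this
            _ = r + 1 := by ring
        · rw [Polynomial.natDegree_le_iff_coeff_eq_zero]
          intro N hN
          exact b_zero m N hN
      rw [Polynomial.coeff_eq_zero_of_natDegree_lt (by omega), abs_zero]
      have := b_nonneg h0 h1 m l
      positivity

theorem t_BIN : S_BIN := by
  intro p h0 h1 r A hA
  exact gen h0 h1 r A hA 4 (by norm_num)

end Pool.Agent.D0H81.FT
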