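import Mathlib
import Pool.Agent.D0H94.T13.Stm
import Pool.Agent.D0H81.FT.Bin

/-! Project FT, module MIX: mixtures of binomial coefficients. -/

open Filter Topology Finset

namespace Pool.Agent.D0H81.FT

open Pool.Agent.D0H94.T13

/-- the weight -/
noncomputable def wt (μ : ℝ) (m s : ℕ) : ℝ := (μ ^ s * (μ ^ 2 * (μ / (1 + μ))) ^ m)⁻¹

theorem wt_pos {μ : ℝ} (hμ : 1 < μ) (m s : ℕ) : 0 < wt μ m s := by
  have : 0 < μ := by linarith
  unfold wt
  positivity

theorem choose_eq {μ : ℝ} (hμ : 1 < μ) (m s j : ℕ) :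
    (m.choose j : ℝ) / μ ^ (2 * m + s + j) = wt μ m s * (bin (1 / (1 + μ)) m).coeff j := by
  have h0 : 0 < μ := by linarith
  have h1 : 0 < 1 + μ := by linarith
  rcases le_or_gt j m with hj | hj
  · rw [bcoeff]
    obtain ⟨d, rfl⟩ := Nat.exists_eq_add_of_le hj
    rw [Nat.add_sub_cancel_left]
    have e : (1 : ℝ) - 1 / (1 + μ) = μ / (1 + μ) := by field_simp; ring
    rw [e]
    unfold wt
    rw [mul_pow, pow_add (μ / (1 + μ)) j d, div_pow, div_pow, div_pow, one_pow]
    have e2 : μ ^ (2 * (j + d) + s + j) = (μ ^ 2) ^ (j + d) * μ ^ s * μ ^ j := by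
      rw [pow_add, pow_add, pow_mul]
    rw [e2]
    field_simp
  · rw [Nat.choose_eq_zero_of_lt hj, b_zero m j hj]
    simp

/-- the normalised mixture -/
noncomputable def GG (μ : ℝ) (S : ℕ) (D : ℕ → ℕ → ℝ) (M N : ℕ) : ℝ :=
  ∑ m ∈ range (M + 1), ∑ s ∈ range (S + 1),
    if 2 * m + s ≤ N then D m s * wt μ m s * (bin (1 / (1 + μ)) m).coeff (N - 2 * m - s) else 0

theorem mix_eq {μ : ℝ} (hμ : 1 < μ) (S : ℕ) (D : ℕ → ℕ → ℝ) (N : ℕ) :
    mix S D N / μ ^ N = GG μ S D N N := by
  unfold mix GG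
  rw [sum_div]
  apply sum_congr rfl
  intro m _
  rw [sum_div]
  apply sum_congr rfl
  intro s _
  by_cases h : 2 * m + s ≤ N
  · rw [if_pos h, if_pos h]
    have h2 : μ ^ N = μ ^ (2 * m + s + (N - 2 * m - s)) := by
      congr 1
      omega
    rw [h2, mul_div_assoc, choose_eq hμ]
    ring
  · rw [if_neg h, if_neg h, zero_div]

theorem GG_ext (μ : ℝ) (S : ℕ) (D : ℕ → ℕ → ℝ) (M N : ℕ) (h : N ≤ M) :
    GG μ S D N N = GG μ S D M N := by
  unfold GG
  apply sum_subset
  · intro m hm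
    rw [mem_range] at hm ⊢
    omega
  · intro m _ hm
    rw [mem_range] at hm
    apply sum_eq_zero
    intro s _
    rw [if_neg (by omega)]

theorem inner_eq (r a N : ℕ) (Q : Polynomial ℝ) :
    ∑ i ∈ range (r + 1), (-1 : ℝ) ^ i * (r.choose i : ℝ) *
      (if a ≤ N + i then Q.coeff (N + i - a) else 0) =
    (-1) ^ r * (if a ≤ N + r then ((1 - Polynomial.X) ^ r * Q).coeff (N + r - a) else 0) := by
  by_cases h : a ≤ N + r
  · rw [if_pos h]
    have e1 : ((1 : Polynomial ℝ) - Polynomial.X) ^ r * Q =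
        ∑ k ∈ range (r + 1), Polynomial.C ((-1 : ℝ) ^ k * (r.choose k : ℝ)) *
          (Polynomial.X ^ k * Q) := by
      rw [show (1 : Polynomial ℝ) - Polynomial.X = -Polynomial.X + 1 by ring, add_pow, sum_mul]
      apply sum_congr rfl
      intro k _
      rw [one_pow, neg_pow, Polynomial.C_mul, Polynomial.C_pow, Polynomial.C_neg, Polynomial.C_1,
        Polynomial.C_eq_natCast]
      ring
    rw [e1, Polynomial.finsetSum_coeff, ← sum_range_reflect, mul_sum]
    apply sum_congr rfl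
    intro i hi
    rw [mem_range] at hi
    rw [Polynomial.coeff_C_mul, Polynomial.coeff_X_pow_mul']
    have hk : r + 1 - 1 - i = r - i := by omega
    rw [hk, Nat.choose_symm (by omega : i ≤ r)]
    have hs : (-1 : ℝ) ^ r * ((-1) ^ i) = (-1) ^ (r - i) := by
      have : (-1 : ℝ) ^ r = (-1) ^ (r - i) * (-1) ^ i := by
        rw [← pow_add]
        congr 1
        omega
      rw [this]
      have h2 : (-1 : ℝ) ^ i * (-1) ^ i = 1 := by
        rw [← mul_pow]
        simp
      calc (-1 : ℝ) ^ (r - i) * (-1) ^ i * (-1) ^ i =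
          (-1 : ℝ) ^ (r - i) * ((-1 : ℝ) ^ i * (-1) ^ i) := by ring
        _ = _ := by rw [h2, mul_one]
    by_cases h3 : a ≤ N + (r - i)
    · rw [if_pos h3, if_pos (by omega)]
      have : N + r - a - i = N + (r - i) - a := by omega
      rw [this, ← hs]
      ring
    · rw [if_neg h3, if_neg (by omega)]
      ring
  · rw [if_neg h, mul_zero]
    apply sum_eq_zero
    intro i hi
    rw [mem_range] at hi
    rw [if_neg (by omega), mul_zero]

theorem diff_eq {μ : ℝ} (hμ : 1 < μ) (S : ℕ) (F : ℕ → ℕ → ℝ) (r N : ℕ) :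
    diff r (fun n => mix S F n / μ ^ n) N =
      ∑ m ∈ range (N + r + 1), ∑ s ∈ range (S + 1), F m s * wt μ m s *
        ((-1) ^ r * (if 2 * m + s ≤ N + r then
          ((1 - Polynomial.X) ^ r * bin (1 / (1 + μ)) m).coeff (N + r - (2 * m + s)) else 0)) := by
  unfold diff
  have h1 : ∀ i ∈ range (r + 1), (-1 : ℝ) ^ i * (r.choose i : ℝ) *
      ((fun n => mix S F n / μ ^ n) (N + i)) =
      ∑ m ∈ range (N + r + 1), ∑ s ∈ range (S + 1), F m s * wt μ m s *
        ((-1 : ℝ) ^ i * (r.choose i : ℝ) * (if 2 * m + s ≤ N + i then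
          (bin (1 / (1 + μ)) m).coeff (N + i - (2 * m + s)) else 0)) := by
    intro i hi
    rw [mem_range] at hi
    simp only
    rw [mix_eq hμ, GG_ext μ S F (N + r) (N + i) (by omega)]
    unfold GG
    rw [mul_sum]
    apply sum_congr rfl
    intro m _
    rw [mul_sum]
    apply sum_congr rfl
    intro s _
    split_ifs with h
    · rw [Nat.sub_sub]
      ring
    · ring
  rw [sum_congr rfl h1, sum_comm]
  apply sum_congr rfl
  intro m _
  rw [sum_comm]
  apply sum_congr rfl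
  intro s _
  rw [← mul_sum, inner_eq]

theorem GG_nonneg {μ : ℝ} (hμ : 1 < μ) (S : ℕ) (D : ℕ → ℕ → ℝ) (hD : ∀ m s, 0 ≤ D m s)
    (M N : ℕ) : 0 ≤ GG μ S D M N := by
  have hp0 : 0 < 1 / (1 + μ) := by positivity
  have hp1 : 1 / (1 + μ) < 1 := by
    rw [div_lt_one (by linarith)]
    linarith
  unfold GG
  apply sum_nonneg
  intro m _
  apply sum_nonneg
  intro s _
  split_ifs
  · exact mul_nonneg (mul_nonneg (hD m s) (wt_pos hμ m s).le) (b_nonneg hp0 hp1 _ _)
  · exact le_rfl

/-- a large coefficient -/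
theorem exists_mode {p : ℝ} (m : ℕ) :
    ∃ j, j ≤ m ∧ 1 / ((m : ℝ) + 1) ≤ (bin p m).coeff j := by
  by_contra hcon
  push Not at hcon
  have hdeg : (bin p m).natDegree < m + 1 := by
    have : (bin p m).natDegree ≤ m := by
      rw [Polynomial.natDegree_le_iff_coeff_eq_zero]
      intro N hN
      exact b_zero m N hN
    omega
  have he := Polynomial.eval_eq_sum_range' hdeg 1
  rw [eval_bin] at he
  have hlt : ∑ i ∈ range (m + 1), (bin p m).coeff i * 1 ^ i <
      ∑ i ∈ range (m + 1), 1 / ((m : ℝ) + 1) := by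
    apply sum_lt_sum_of_nonempty (by simp)
    intro i hi
    rw [mem_range] at hi
    rw [one_pow, mul_one]
    exact hcon i (by omega)
  rw [← he, sum_const, card_range, nsmul_eq_mul] at hlt
  have : ((m + 1 : ℕ) : ℝ) * (1 / ((m : ℝ) + 1)) = 1 := by
    push_cast
    field_simp
  rw [this] at hlt
  norm_num at hlt

/-- the growth of the weights -/
theorem D_bound {μ : ℝ} (hμ : 1 < μ) (S N1 : ℕ) (D : ℕ → ℕ → ℝ) (hN1 : 2 ≤ N1)
    (hD : ∀ m s, 0 ≤ D m s) (K : ℝ) (hK0 : 0 ≤ K)
    (hK : ∀ N, N1 ≤ N → mix S D N ≤ μ ^ N * Real.exp (K * Real.log N ^ 2)) (m s : ℕ)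
    (hm : N1 ≤ 2 * m) (hs : s ≤ S) :
    D m s * wt μ m s ≤ ((m : ℝ) + 1) * Real.exp (K * Real.log ((3 * m + S : ℕ) : ℝ) ^ 2) := by
  have hp0 : 0 < 1 / (1 + μ) := by positivity
  have hp1 : 1 / (1 + μ) < 1 := by
    rw [div_lt_one (by linarith)]
    linarith
  obtain ⟨j, hj, hjb⟩ := exists_mode (p := 1 / (1 + μ)) m
  set N := 2 * m + s + j with hN
  have h1 := hK N (by omega)
  have hμN : 0 < μ ^ N := by positivity
  have h2 : mix S D N / μ ^ N ≤ Real.exp (K * Real.log N ^ 2) := by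
    rw [div_le_iff₀ hμN, mul_comm]
    exact h1
  rw [mix_eq hμ] at h2
  have hterm : ∀ m' s', 0 ≤ (if 2 * m' + s' ≤ N then
      D m' s' * wt μ m' s' * (bin (1 / (1 + μ)) m').coeff (N - 2 * m' - s') else 0) := by
    intro m' s'
    split_ifs
    · exact mul_nonneg (mul_nonneg (hD m' s') (wt_pos hμ m' s').le) (b_nonneg hp0 hp1 _ _)
    · exact le_rfl
  have h3 : D m s * wt μ m s * (bin (1 / (1 + μ)) m).coeff j ≤ GG μ S D N N := by
    unfold GG
    have a1 : (∑ s' ∈ range (S + 1), if 2 * m + s' ≤ N then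
        D m s' * wt μ m s' * (bin (1 / (1 + μ)) m).coeff (N - 2 * m - s') else 0) ≤
        ∑ m' ∈ range (N + 1), ∑ s' ∈ range (S + 1), if 2 * m' + s' ≤ N then
        D m' s' * wt μ m' s' * (bin (1 / (1 + μ)) m').coeff (N - 2 * m' - s') else 0 :=
      single_le_sum (f := fun m' => ∑ s' ∈ range (S + 1), if 2 * m' + s' ≤ N then
        D m' s' * wt μ m' s' * (bin (1 / (1 + μ)) m').coeff (N - 2 * m' - s') else 0)
        (fun m' _ => sum_nonneg fun s' _ => hterm m' s') (mem_range.mpr (by omega))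
    have a2 : (if 2 * m + s ≤ N then
        D m s * wt μ m s * (bin (1 / (1 + μ)) m).coeff (N - 2 * m - s) else 0) ≤
        ∑ s' ∈ range (S + 1), if 2 * m + s' ≤ N then
        D m s' * wt μ m s' * (bin (1 / (1 + μ)) m).coeff (N - 2 * m - s') else 0 :=
      single_le_sum (f := fun s' => if 2 * m + s' ≤ N then
        D m s' * wt μ m s' * (bin (1 / (1 + μ)) m).coeff (N - 2 * m - s') else 0)
        (fun s' _ => hterm m s') (mem_range.mpr (by omega))
    rw [if_pos (by omega)] at a2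
    have e : N - 2 * m - s = j := by omega
    rw [e] at a2
    exact a2.trans a1
  have hlog : Real.log N ^ 2 ≤ Real.log ((3 * m + S : ℕ) : ℝ) ^ 2 := by
    have hNpos : 1 ≤ N := by omega
    have b1 : (1 : ℝ) ≤ N := by exact_mod_cast hNpos
    have b2 : (N : ℝ) ≤ ((3 * m + S : ℕ) : ℝ) := by
      have : N ≤ 3 * m + S := by omega
      exact_mod_cast this
    exact pow_le_pow_left₀ (Real.log_nonneg b1) (Real.log_le_log (by linarith) b2) 2
  have h4 : Real.exp (K * Real.log N ^ 2) ≤ Real.exp (K * Real.log ((3 * m + S : ℕ) : ℝ) ^ 2) :=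
    Real.exp_le_exp.mpr (mul_le_mul_of_nonneg_left hlog hK0)
  have hD0 : 0 ≤ D m s * wt μ m s := mul_nonneg (hD m s) (wt_pos hμ m s).le
  have h5 : D m s * wt μ m s * (1 / ((m : ℝ) + 1)) ≤
      Real.exp (K * Real.log ((3 * m + S : ℕ) : ℝ) ^ 2) :=
    (mul_le_mul_of_nonneg_left hjb hD0).trans (h3.trans (h2.trans h4))
  have hm0 : (0 : ℝ) < (m : ℝ) + 1 := by positivity
  rw [mul_one_div, div_le_iff₀ hm0] at h5
  linarith

theorem ev_small (r S : ℕ) (c : ℝ) (hc : 0 < c) :
    ∀ᶠ n : ℕ in atTop, ((n : ℝ) + r + 1) * (S + 1) * (n + 1) * Real.exp (-(Real.log n ^ 2)) ≤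
      c * ρ n ^ r := by
  have ev1 : ∀ᶠ n : ℕ in atTop, (r : ℝ) + 3 ≤ Real.log n :=
    (Real.tendsto_log_atTop.comp tendsto_natCast_atTop_atTop).eventually_ge_atTop _
  have ev2 : ∀ᶠ n : ℕ in atTop, 2 * ((r : ℝ) + 2) * (S + 1) / c ≤ n :=
    tendsto_natCast_atTop_atTop.eventually_ge_atTop _
  filter_upwards [ev1, ev2, eventually_ge_atTop 1] with n h1 h2 h3
  have hn1 : (1 : ℝ) ≤ n := by exact_mod_cast h3
  have hr0 : (0 : ℝ) ≤ r := Nat.cast_nonneg r
  have hS0 : (0 : ℝ) ≤ S := Nat.cast_nonneg S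
  rw [div_le_iff₀ hc] at h2
  -- lower bound for ρ
  have hρ : 1 / (n : ℝ) ≤ ρ n := by
    unfold ρ
    have hs : 0 < Real.sqrt n := Real.sqrt_pos.mpr (by linarith)
    have hs1 : Real.sqrt n ≤ n := by
      rw [Real.sqrt_le_left (by linarith)]
      nlinarith
    rw [div_le_div_iff₀ (by linarith) hs, one_mul]
    nlinarith
  have hρr : (1 / (n : ℝ)) ^ r ≤ ρ n ^ r := pow_le_pow_left₀ (by positivity) hρ r
  -- upper bound for exp
  have he : Real.exp (-(Real.log n ^ 2)) ≤ (1 / (n : ℝ)) ^ (r + 3) := by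
    have e1 : (1 / (n : ℝ)) ^ (r + 3) = Real.exp (-(((r + 3 : ℕ) : ℝ) * Real.log n)) := by
      rw [Real.exp_neg, Real.exp_nat_mul, Real.exp_log (by linarith), one_div, inv_pow]
    rw [e1]
    apply Real.exp_le_exp.mpr
    push_cast
    nlinarith
  have hn0 : (0 : ℝ) < n := by linarith
  have hu : ((n : ℝ) + r + 1) * (S + 1) * (n + 1) ≤ (n * (r + 2)) * (S + 1) * (2 * n) := by
    have a1 : (n : ℝ) + r + 1 ≤ n * (r + 2) := by nlinarith
    have a2 : (n : ℝ) + 1 ≤ 2 * n := by linarith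
    gcongr
  calc ((n : ℝ) + r + 1) * (S + 1) * (n + 1) * Real.exp (-(Real.log n ^ 2)) ≤
        ((n * (r + 2)) * (S + 1) * (2 * n)) * (1 / (n : ℝ)) ^ (r + 3) := by
          apply mul_le_mul hu he (Real.exp_pos _).le (by positivity)
    _ = (2 * ((r : ℝ) + 2) * (S + 1)) * (1 / n) * (1 / (n : ℝ)) ^ r := by
          rw [pow_add]
          field_simp
    _ ≤ (n * c) * (1 / n) * (1 / (n : ℝ)) ^ r := by gcongr
    _ = c * (1 / (n : ℝ)) ^ r := by field_simp
    _ ≤ _ := mul_le_mul_of_nonneg_left hρr hc.le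

/-- the bound for large `N`, relative to the value at `N + r` -/
theorem large (hB : S_BIN) {μ : ℝ} (hμ : 1 < μ) (S N1 : ℕ) (D : ℕ → ℕ → ℝ) (hN1 : 2 ≤ N1)
    (hD : ∀ m s, 0 ≤ D m s) (c : ℝ) (hc : 0 < c) (K0 : ℝ) (hK0 : 0 ≤ K0)
    (hK : ∀ N, N1 ≤ N → mix S D N ≤ μ ^ N * Real.exp (K0 * Real.log N ^ 2)) (r : ℕ) :
    ∃ K : ℝ, 0 < K ∧ ∀ᶠ N : ℕ in atTop, ∀ F : ℕ → ℕ → ℝ, (∀ m s, |F m s| ≤ D m s) →
      |diff r (fun n => mix S F n / μ ^ n) N| ≤
        K * ρ N ^ r * (mix S D (N + r) / μ ^ (N + r)) + c * ρ N ^ r := by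
  have hp0 : 0 < 1 / (1 + μ) := by positivity
  have hp1 : 1 / (1 + μ) < 1 := by
    rw [div_lt_one (by linarith)]
    linarith
  obtain ⟨K, hKp, n0, hn0⟩ := hB (1 / (1 + μ)) hp0 hp1 r (4 * K0 + 1) (by linarith)
  refine ⟨K, hKp, ?_⟩
  filter_upwards [ev_small r S c hc, eventually_ge_atTop n0, eventually_ge_atTop (4 * S),
    eventually_ge_atTop r, eventually_ge_atTop (2 * N1), eventually_ge_atTop (S + 3)]
    with N h1 h2 h3 h4 h5 h6
  intro F hF
  have hN1' : (1 : ℝ) ≤ N := by
    have : 1 ≤ N := by omega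
    exact_mod_cast this
  have hlogN : 0 ≤ Real.log N := Real.log_nonneg hN1'
  have hρ0 : 0 ≤ ρ N := by
    unfold ρ
    exact div_nonneg hlogN (Real.sqrt_nonneg _)
  set E := ((N : ℝ) + 1) * Real.exp (-(Real.log N ^ 2)) with hE
  have hE0 : 0 ≤ E := by positivity
  -- termwise
  have hterm : ∀ m ∈ range (N + r + 1), ∀ s ∈ range (S + 1), |F m s * wt μ m s *
        ((-1) ^ r * (if 2 * m + s ≤ N + r then
          ((1 - Polynomial.X) ^ r * bin (1 / (1 + μ)) m).coeff (N + r - (2 * m + s)) else 0))| ≤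
      K * ρ N ^ r * (if 2 * m + s ≤ N + r then
        D m s * wt μ m s * (bin (1 / (1 + μ)) m).coeff (N + r - 2 * m - s) else 0) + E := by
    intro m _ s hs
    rw [mem_range] at hs
    have hw := wt_pos hμ m s
    by_cases hc1 : 2 * m + s ≤ N + r
    · rw [if_pos hc1, if_pos hc1, Nat.sub_sub, abs_mul, abs_mul, abs_mul, abs_pow, abs_neg, abs_one,
        one_pow, one_mul, abs_of_pos hw]
      have hFD : |F m s| * wt μ m s ≤ D m s * wt μ m s :=
        mul_le_mul_of_nonneg_right (hF m s) hw.le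
      have hD0 : 0 ≤ D m s * wt μ m s := mul_nonneg (hD m s) hw.le
      have hb := b_nonneg hp0 hp1 m (N + r - (2 * m + s))
      by_cases hc2 : N + r - (2 * m + s) ≤ m + r
      · have hm4 : N ≤ 4 * m := by omega
        have hmN : m ≤ N := by omega
        have hbin := hn0 N m h2 hm4 hmN (N + r - (2 * m + s))
        have hDb := D_bound hμ S N1 D hN1 hD K0 hK0 hK m s (by omega) (by omega)
        have hDb2 : D m s * wt μ m s ≤ ((N : ℝ) + 1) * Real.exp (4 * K0 * Real.log N ^ 2) := by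
          refine hDb.trans ?_
          have a1 : (m : ℝ) ≤ N := by exact_mod_cast hmN
          have a2 : Real.log ((3 * m + S : ℕ) : ℝ) ≤ 2 * Real.log N := by
            have b1 : ((3 * m + S : ℕ) : ℝ) ≤ (N : ℝ) ^ 2 := by
              have : 3 * m + S ≤ N ^ 2 := by nlinarith
              exact_mod_cast this
            have b2 : (0 : ℝ) < ((3 * m + S : ℕ) : ℝ) := by
              have : 0 < 3 * m + S := by omega
              exact_mod_cast this
            have b3 := Real.log_le_log b2 b1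
            rw [Real.log_pow] at b3
            push_cast at b3 ⊢
            linarith
          have a3 : 0 ≤ Real.log ((3 * m + S : ℕ) : ℝ) := Real.log_natCast_nonneg _
          have a4 : K0 * Real.log ((3 * m + S : ℕ) : ℝ) ^ 2 ≤ 4 * K0 * Real.log N ^ 2 := by
            have := pow_le_pow_left₀ a3 a2 2
            have := mul_le_mul_of_nonneg_left this hK0
            nlinarith
          have a5 := Real.exp_le_exp.mpr a4
          have a6 : (m : ℝ) + 1 ≤ (N : ℝ) + 1 := by linarith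
          exact mul_le_mul a6 a5 (Real.exp_pos _).le (by positivity)
        calc _ ≤ (D m s * wt μ m s) * (K * ρ N ^ r *
              (bin (1 / (1 + μ)) m).coeff (N + r - (2 * m + s)) +
              Real.exp (-((4 * K0 + 1) * Real.log N ^ 2))) := by
              exact mul_le_mul hFD hbin (abs_nonneg _) hD0
          _ = K * ρ N ^ r * (D m s * wt μ m s *
              (bin (1 / (1 + μ)) m).coeff (N + r - (2 * m + s))) +
              (D m s * wt μ m s) * Real.exp (-((4 * K0 + 1) * Real.log N ^ 2)) := by ring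
          _ ≤ K * ρ N ^ r * (D m s * wt μ m s *
              (bin (1 / (1 + μ)) m).coeff (N + r - (2 * m + s))) +
              (((N : ℝ) + 1) * Real.exp (4 * K0 * Real.log N ^ 2)) *
                Real.exp (-((4 * K0 + 1) * Real.log N ^ 2)) := by
              gcongr
          _ = _ := by
              rw [hE, mul_assoc ((N : ℝ) + 1), ← Real.exp_add]
              congr 3
              ring
      · have hz : ((1 - Polynomial.X) ^ r * bin (1 / (1 + μ)) m).coeff (N + r - (2 * m + s)) = 0 := by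
          apply Polynomial.coeff_eq_zero_of_natDegree_lt
          refine lt_of_le_of_lt Polynomial.natDegree_mul_le ?_
          have d1 : (((1 : Polynomial ℝ) - Polynomial.X) ^ r).natDegree ≤ r := by
            refine (Polynomial.natDegree_pow_le).trans ?_
            have : ((1 : Polynomial ℝ) - Polynomial.X).natDegree ≤ 1 := by
              refine (Polynomial.natDegree_sub_le _ _).trans ?_
              simp
            calc r * ((1 : Polynomial ℝ) - Polynomial.X).natDegree ≤ r * 1 :=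
                  Nat.mul_le_mul_left _ this
              _ = r := by ring
          have d2 : (bin (1 / (1 + μ)) m).natDegree ≤ m := by
            rw [Polynomial.natDegree_le_iff_coeff_eq_zero]
            intro N hN
            exact b_zero m N hN
          omega
        rw [hz, abs_zero, mul_zero]
        positivity
    · rw [if_neg hc1, if_neg hc1, mul_zero, mul_zero, abs_zero, mul_zero, zero_add]
      exact hE0
  rw [diff_eq hμ]
  refine (abs_sum_le_sum_abs _ _).trans ?_
  refine (sum_le_sum fun m hm => (abs_sum_le_sum_abs _ _).trans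
    (sum_le_sum fun s hs => hterm m hm s hs)).trans ?_
  rw [mix_eq hμ]
  unfold GG
  simp_rw [sum_add_distrib, ← mul_sum]
  have hlast : ∑ _m ∈ range (N + r + 1), ∑ _s ∈ range (S + 1), E =
      ((N : ℝ) + r + 1) * (S + 1) * (N + 1) * Real.exp (-(Real.log N ^ 2)) := by
    rw [sum_const, sum_const, card_range, card_range, nsmul_eq_mul, nsmul_eq_mul, hE]
    push_cast
    ring
  rw [hlast]
  linarith

theorem t_MIX : S_BIN → S_MIX := by
  intro hB μ S N1 D hμ hN1 hD hlow hup r
  obtain ⟨c, hc, hlow⟩ := hlow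
  obtain ⟨K', hK'⟩ := hup
  have hμ0 : 0 < μ := by linarith
  set K0 := max K' 0 with hK0d
  have hK0 : 0 ≤ K0 := le_max_right _ _
  have hK : ∀ N, N1 ≤ N → mix S D N ≤ μ ^ N * Real.exp (K0 * Real.log N ^ 2) := by
    intro N hN
    refine (hK' N hN).trans ?_
    apply mul_le_mul_of_nonneg_left _ (by positivity)
    apply Real.exp_le_exp.mpr
    exact mul_le_mul_of_nonneg_right (le_max_left _ _) (sq_nonneg _)
  set G : ℕ → ℝ := fun N => mix S D N / μ ^ N with hG
  have hGc : ∀ N, N1 ≤ N → c ≤ G N := by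
    intro N hN
    rw [hG]
    simp only
    rw [le_div_iff₀ (by positivity)]
    exact hlow N hN
  have hG0 : ∀ N, 0 ≤ G N := by
    intro N
    rw [hG]
    simp only
    rw [mix_eq hμ]
    exact GG_nonneg hμ S D hD N N
  -- growth by one step
  obtain ⟨Ka, hKa, hea⟩ := large hB hμ S N1 D hN1 hD c hc K0 hK0 hK 1
  have hstep : ∀ᶠ N : ℕ in atTop, G (N + 1) ≤ 2 * G N := by
    have ev1 : ∀ᶠ n : ℕ in atTop, Real.log n / Real.sqrt n < min (1 / 4) (1 / (4 * Ka)) :=
      rho_tendsto.eventually_lt_const (by positivity)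
    filter_upwards [hea, ev1, eventually_ge_atTop N1] with N h1 h2 h3
    have h4 := h1 D (fun m s => by rw [abs_of_nonneg (hD m s)])
    have h5 : diff 1 (fun n => mix S D n / μ ^ n) N = G N - G (N + 1) := by
      unfold diff
      rw [sum_range_succ, sum_range_one]
      simp [hG]
      ring
    rw [h5, pow_one] at h4
    have h6 := (abs_le.mp h4).1
    have h7 : ρ N ≤ 1 / 4 := (lt_min_iff.mp h2).1.le
    have h8 : Ka * ρ N ≤ 1 / 4 := by
      have := (lt_min_iff.mp h2).2.le
      have h9 : Ka * ρ N ≤ Ka * (1 / (4 * Ka)) := mul_le_mul_of_nonneg_left this hKa.le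
      refine h9.trans (le_of_eq ?_)
      field_simp
    have h9 := hGc N h3
    have h10 := hG0 (N + 1)
    have h11 : Ka * ρ N * G (N + 1) ≤ 1 / 4 * G (N + 1) := mul_le_mul_of_nonneg_right h8 h10
    have h12 : c * ρ N ≤ 1 / 4 * G N := by
      have h13 : c * ρ N ≤ c * (1 / 4) := mul_le_mul_of_nonneg_left h7 hc.le
      linarith
    have h14 : Ka * ρ N * (mix S D (N + 1) / μ ^ (N + 1)) = Ka * ρ N * G (N + 1) := rfl
    rw [h14] at h6
    linarith
  have hsteps : ∀ k : ℕ, ∀ᶠ N : ℕ in atTop, G (N + k) ≤ 2 ^ k * G N := by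
    intro k
    obtain ⟨n1, hn1⟩ := eventually_atTop.mp hstep
    filter_upwards [eventually_ge_atTop n1] with N hN
    induction k with
    | zero => simp
    | succ k ih =>
      have := hn1 (N + k) (by omega)
      rw [← add_assoc]
      calc G (N + k + 1) ≤ 2 * G (N + k) := this
        _ ≤ 2 * (2 ^ k * G N) := by linarith
        _ = _ := by ring
  obtain ⟨Kb, hKb, heb⟩ := large hB hμ S N1 D hN1 hD c hc K0 hK0 hK r
  obtain ⟨n2, hn2⟩ := eventually_atTop.mp (heb.and ((hsteps r).and (eventually_ge_atTop N1)))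
  -- small values of N
  set Mx : ℕ → ℝ := fun N => (∑ i ∈ range (r + 1), (r.choose i : ℝ) * G (N + i)) / (ρ N ^ r * c)
    with hMx
  have hρpos : ∀ N, 2 ≤ N → 0 < ρ N := by
    intro N hN
    unfold ρ
    have : (2 : ℝ) ≤ N := by exact_mod_cast hN
    exact div_pos (Real.log_pos (by linarith)) (Real.sqrt_pos.mpr (by linarith))
  have hMx0 : ∀ N, 2 ≤ N → 0 ≤ Mx N := by
    intro N hN
    rw [hMx]
    have := hρpos N hN
    have h2 : 0 ≤ ∑ i ∈ range (r + 1), (r.choose i : ℝ) * G (N + i) :=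
      sum_nonneg fun i _ => mul_nonneg (by positivity) (hG0 _)
    positivity
  refine ⟨Kb * 2 ^ r + 1 + ∑ N ∈ (range n2).filter (fun N => 2 ≤ N), Mx N, ?_, ?_⟩
  · have : 0 ≤ ∑ N ∈ (range n2).filter (fun N => 2 ≤ N), Mx N := by
      apply sum_nonneg
      intro N hN
      rw [mem_filter] at hN
      exact hMx0 N hN.2
    positivity
  intro F hF N hN
  have hN2 : 2 ≤ N := by omega
  have hρN := hρpos N hN2
  have hGN := hGc N hN
  have hGN0 : 0 < G N := by linarith
  have hsumnn : 0 ≤ ∑ N ∈ (range n2).filter (fun N => 2 ≤ N), Mx N := by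
    apply sum_nonneg
    intro N hN
    rw [mem_filter] at hN
    exact hMx0 N hN.2
  change |diff r (fun n => mix S F n / μ ^ n) N| ≤ _ * ρ N ^ r * G N
  rcases Nat.lt_or_ge N n2 with hlt | hge
  · -- small
    have h1 : |diff r (fun n => mix S F n / μ ^ n) N| ≤
        ∑ i ∈ range (r + 1), (r.choose i : ℝ) * G (N + i) := by
      unfold diff
      refine (abs_sum_le_sum_abs _ _).trans (sum_le_sum ?_)
      intro i _
      rw [abs_mul, abs_mul, abs_pow, abs_neg, abs_one, one_pow, one_mul, Nat.abs_cast]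
      apply mul_le_mul_of_nonneg_left _ (by positivity)
      rw [hG]
      simp only
      rw [abs_div, abs_of_pos (by positivity : 0 < μ ^ (N + i))]
      apply div_le_div_of_nonneg_right _ (by positivity)
      unfold mix
      refine (abs_sum_le_sum_abs _ _).trans (sum_le_sum fun m _ =>
        (abs_sum_le_sum_abs _ _).trans (sum_le_sum fun s _ => ?_))
      split_ifs
      · rw [abs_mul, Nat.abs_cast]
        exact mul_le_mul_of_nonneg_right (hF m s) (by positivity)
      · simp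
    have h2 : ∑ i ∈ range (r + 1), (r.choose i : ℝ) * G (N + i) = Mx N * (ρ N ^ r * c) := by
      rw [hMx]
      field_simp
    have h3 : Mx N * (ρ N ^ r * c) ≤ Mx N * (ρ N ^ r * G N) := by
      apply mul_le_mul_of_nonneg_left _ (hMx0 N hN2)
      exact mul_le_mul_of_nonneg_left hGN (by positivity)
    have h4 : Mx N ≤ ∑ N ∈ (range n2).filter (fun N => 2 ≤ N), Mx N := by
      apply single_le_sum (f := Mx)
      · intro N hN
        rw [mem_filter] at hN
        exact hMx0 N hN.2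
      · rw [mem_filter, mem_range]
        exact ⟨hlt, hN2⟩
    have h5 : Mx N ≤ Kb * 2 ^ r + 1 + ∑ N ∈ (range n2).filter (fun N => 2 ≤ N), Mx N := by
      have : 0 ≤ Kb * 2 ^ r := by positivity
      linarith
    calc _ ≤ Mx N * (ρ N ^ r * G N) := by linarith
      _ ≤ (Kb * 2 ^ r + 1 + ∑ N ∈ (range n2).filter (fun N => 2 ≤ N), Mx N) * (ρ N ^ r * G N) :=
          mul_le_mul_of_nonneg_right h5 (by positivity)
      _ = _ := by ring
  · obtain ⟨h1, h2, h3⟩ := hn2 N hge
    have h4 := h1 F hF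
    have h5 : Kb * ρ N ^ r * (mix S D (N + r) / μ ^ (N + r)) ≤ Kb * ρ N ^ r * (2 ^ r * G N) :=
      mul_le_mul_of_nonneg_left h2 (by positivity)
    have h6 : c * ρ N ^ r ≤ G N * ρ N ^ r := mul_le_mul_of_nonneg_right hGN (by positivity)
    have h7 : 0 ≤ (∑ N ∈ (range n2).filter (fun N => 2 ≤ N), Mx N) * ρ N ^ r * G N := by
      positivity
    calc _ ≤ Kb * ρ N ^ r * (2 ^ r * G N) + G N * ρ N ^ r := by linarith
      _ ≤ Kb * ρ N ^ r * (2 ^ r * G N) + G N * ρ N ^ r +
          (∑ N ∈ (range n2).filter (fun N => 2 ≤ N), Mx N) * ρ N ^ r * G N := by linarith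
      _ = _ := by ring

end Pool.Agent.D0H81.FT
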